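import Pool.Agent.Helper28.TK.StK

/-!
# Project TK, module TN5: the Mellin transform of the twisted sum as a Dirichlet series, weight `2A+2`
-/

set_option autoImplicit false

open UpperHalfPlane CongruenceSubgroup
open scoped MatrixGroups

namespace Pool.Agent.Helper21.TK

open Pool.Agent.Helper28.TK Pool.Agent.Helper14.WK
open Pool.Agent.Helper14.CV (G0)
open Pool.Agent.Helper76.TX (tau StAN3)

private lemma bo5 {N : ℕ} (hN : NeZero N) (A : ℕ) (f : CuspForm (G0 N) (2 * A + 2)) :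
    (fun m : ℕ => fcK f m) =O[Filter.atTop] fun m : ℕ => (m : ℝ) ^ ((A : ℝ) + 1) := by
  have h := CuspFormClass.qExpansion_isBigO f
  rw [CongruenceSubgroup.strictWidthInfty_Gamma0] at h
  have e : (fun n : ℕ => (n : ℝ) ^ (((2 * (A : ℤ) + 2 : ℤ) : ℝ) / 2)) =
      fun n : ℕ => (n : ℝ) ^ ((A : ℝ) + 1) := by
    funext n
    congr 1
    push_cast
    ring
  rw [e] at h
  exact h

theorem hTN5 : StTN5 := by
  intro h1 h3 h4 N hN A f D hD χ hχ s hs
  have hpi := Real.pi_pos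
  have hA : (0 : ℝ) ≤ (A : ℝ) := Nat.cast_nonneg A
  have h0 : fcK f 0 = 0 := (h1 N hN _ f Complex.I (by simp)).1
  refine hasSum_mellin (a := fun m : ℕ => tau χ * χ (m : ZMod D) * fcK f m)
    (p := fun m : ℕ => 2 * Real.pi * m) ?_ (by linarith) ?_ ?_
  · intro m
    rcases Nat.eq_zero_or_pos m with hm | hm
    · left
      rw [hm, h0, mul_zero]
    · right
      have : (0 : ℝ) < m := by exact_mod_cast hm
      positivity
  · intro t ht
    exact h4 h1 h3 N hN _ f D hD χ hχ t ht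
  · have h5 := bo5 hN A f
    have hg : Summable (fun m : ℕ => (m : ℝ) ^ ((A : ℝ) + 1 - s.re)) :=
      Real.summable_nat_rpow.mpr (by linarith)
    refine summable_of_isBigO_nat hg ?_
    obtain ⟨C, hC⟩ := h5.bound
    refine Asymptotics.IsBigO.of_bound (‖tau χ‖ * C / (2 * Real.pi) ^ s.re) ?_
    filter_upwards [hC, Filter.eventually_ge_atTop 1] with m hm hm1
    have hm0 : (0 : ℝ) < m := by exact_mod_cast hm1
    have e1 : (2 * Real.pi * m) ^ s.re = (2 * Real.pi) ^ s.re * (m : ℝ) ^ s.re :=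
      Real.mul_rpow (by positivity) hm0.le
    have e2 : (m : ℝ) ^ ((A : ℝ) + 1 - s.re) = (m : ℝ) ^ ((A : ℝ) + 1) / (m : ℝ) ^ s.re := by
      rw [Real.rpow_sub hm0]
    obtain ⟨w, hw⟩ : ∃ w : ℝ, w = (m : ℝ) ^ ((A : ℝ) + 1) := ⟨_, rfl⟩
    have hw0 : 0 < w := by rw [hw]; positivity
    have hx : ‖χ (m : ZMod D)‖ ≤ 1 := DirichletCharacter.norm_le_one χ _
    have hp1 : (0 : ℝ) < (2 * Real.pi) ^ s.re := by positivity
    have hp2 : (0 : ℝ) < (m : ℝ) ^ s.re := by positivity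
    rw [e1, e2, Real.norm_of_nonneg (by positivity), Real.norm_of_nonneg (by positivity), ← hw]
    have e3 : ‖tau χ * χ (m : ZMod D) * fcK f m‖ ≤ ‖tau χ‖ * (C * w) := by
      rw [norm_mul, norm_mul]
      have h6 : ‖fcK f m‖ ≤ C * w := by
        have := hm
        rwa [← hw, Real.norm_of_nonneg hw0.le] at this
      have h7 : 0 ≤ C * w := (norm_nonneg _).trans h6
      calc ‖tau χ‖ * ‖χ (m : ZMod D)‖ * ‖fcK f m‖ ≤ ‖tau χ‖ * 1 * (C * w) := by gcongr
        _ = ‖tau χ‖ * (C * w) := by ring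
    calc ‖tau χ * χ (m : ZMod D) * fcK f m‖ / ((2 * Real.pi) ^ s.re * (m : ℝ) ^ s.re)
        ≤ ‖tau χ‖ * (C * w) / ((2 * Real.pi) ^ s.re * (m : ℝ) ^ s.re) := by gcongr
      _ = ‖tau χ‖ * C / (2 * Real.pi) ^ s.re * (w / (m : ℝ) ^ s.re) := by
        field_simp

end Pool.Agent.Helper21.TK
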